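import Mathlib

/-!
One-sided points of the circle, the chain of finite subgroups exhausting a torsion subgroup, and
the half-side function. Helper file for MP_ad338c_an.
-/

set_option autoImplicit false

open Filter Set Topology Equiv

namespace Pool.Agent.AD97

abbrev S : Type := AddCircle (1 : ℝ)

/-- The sign as a real number. -/
def sg (s : ℤˣ) : ℝ := ((s : ℤ) : ℝ)

lemma sg_mul (s t : ℤˣ) : sg (s * t) = sg s * sg t := by simp [sg]
lemma sg_one : sg 1 = 1 := by simp [sg]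
lemma sg_neg (s : ℤˣ) : sg (-s) = -sg s := by simp [sg]
lemma sg_cases (s : ℤˣ) : sg s = 1 ∨ sg s = -1 := by
  rcases Int.units_eq_one_or s with h | h <;> simp [h, sg]
lemma sg_mul_self (s : ℤˣ) : sg s * sg s = 1 := by
  rcases sg_cases s with h | h <;> simp [h]
lemma sg_inj {s t : ℤˣ} (h : sg s = sg t) : s = t := by
  have : ((s : ℤ) : ℝ) = ((t : ℤ) : ℝ) := h
  exact Units.ext (by exact_mod_cast this)

lemma unit_eq_or (s t : ℤˣ) : s = t ∨ s = -t := by
  rcases Int.units_eq_one_or s with h | h <;> rcases Int.units_eq_one_or t with h' | h' <;>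
    simp [h, h']

lemma smul_coe (s : ℤˣ) (r : ℝ) : (s : ℤ) • (r : S) = ((sg s * r : ℝ) : S) := by
  rw [← AddCircle.coe_zsmul, zsmul_eq_mul]; rfl

lemma nsmul_coe (n : ℕ) (r : ℝ) : n • (r : S) = ((n * r : ℝ) : S) := by
  rw [← AddCircle.coe_nsmul, nsmul_eq_mul]

lemma smul_smul_self (s : ℤˣ) (x : S) : (s : ℤ) • (s : ℤ) • x = x := by
  rw [smul_smul]
  have : (s : ℤ) * s = 1 := by rcases Int.units_eq_one_or s with h | h <;> simp [h]
  rw [this, one_smul]

lemma coe_ne_zero {r : ℝ} (h0 : 0 < r) (h1 : r < 1) : (r : S) ≠ 0 := by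
  intro h
  obtain ⟨n, hn⟩ := (AddCircle.coe_eq_zero_iff (1 : ℝ)).1 h
  have h2 : (n : ℝ) = r := by simpa using hn
  rw [← h2] at h0 h1
  have h3 : 0 < n := by exact_mod_cast h0
  have h4 : n < 1 := by exact_mod_cast h1
  omega

lemma coe_int (n : ℤ) : (((n : ℝ)) : S) = 0 :=
  (AddCircle.coe_eq_zero_iff (1 : ℝ)).2 ⟨n, by simp⟩

lemma coe_zero_int {r : ℝ} (h : (r : S) = 0) : ∃ n : ℤ, r = n := by
  obtain ⟨n, hn⟩ := (AddCircle.coe_eq_zero_iff (1 : ℝ)).1 h
  exact ⟨n, by simpa using hn.symm⟩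

lemma coe_eq_int {a b : ℝ} (h : (a : S) = b) : ∃ n : ℤ, a - b = n :=
  coe_zero_int (by rw [AddCircle.coe_sub, h, sub_self])

/-- One-sided points (germs): a point and a side. -/
abbrev D : Type := S × ℤˣ

/-- The point at distance `t` from `d.1` on the side `d.2`. -/
def pt (d : D) (t : ℝ) : S := d.1 + ((sg d.2 * t : ℝ) : S)

def aff (s : ℤˣ) (c x : S) : S := (s : ℤ) • x + c

def affD (s : ℤˣ) (c : S) (d : D) : D := (aff s c d.1, s * d.2)

lemma aff_pt (s : ℤˣ) (c : S) (d : D) (t : ℝ) : aff s c (pt d t) = pt (affD s c d) t := by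
  simp only [aff, pt, affD, smul_add, smul_coe, sg_mul]
  rw [mul_assoc]
  abel

lemma aff_add (s : ℤˣ) (c x y : S) : aff s c (x + y) = aff s c x + (s : ℤ) • y := by
  simp only [aff, smul_add]; abel

lemma pt_continuous (d : D) : Continuous (pt d) := by
  unfold pt
  exact continuous_const.add ((AddCircle.continuous_mk' 1).comp (by fun_prop))

lemma pt_zero (d : D) : pt d 0 = d.1 := by simp [pt]

lemma pt_tendsto (d : D) : Tendsto (pt d) (𝓝[>] 0) (𝓝 d.1) := by
  have := (pt_continuous d).tendsto 0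
  rw [pt_zero] at this
  exact this.mono_left nhdsWithin_le_nhds

lemma ev_lt {δ : ℝ} (h : 0 < δ) : ∀ᶠ t : ℝ in 𝓝[>] 0, 0 < t ∧ t < δ := by
  filter_upwards [self_mem_nhdsWithin, mem_nhdsWithin_of_mem_nhds (Iio_mem_nhds h)] with t h1 h2
  exact ⟨h1, h2⟩

lemma uniq {d d' : D} (h : ∀ᶠ t : ℝ in 𝓝[>] 0, pt d t = pt d' t) : d = d' := by
  have h1 : d.1 = d'.1 := tendsto_nhds_unique_of_eventuallyEq (pt_tendsto d) (pt_tendsto d') h
  refine Prod.ext h1 ?_
  by_contra hne
  have h2 : d'.2 = -d.2 := by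
    rcases unit_eq_or d'.2 d.2 with h | h
    · exact absurd h.symm hne
    · exact h
  obtain ⟨t, ht, ht0, ht1⟩ := (h.and (ev_lt (show (0 : ℝ) < 1 / 2 by norm_num))).exists
  simp only [pt, h1, h2, add_right_inj, sg_neg] at ht
  obtain ⟨n, hn⟩ := coe_eq_int ht
  have h3 : (2 * t : ℝ) = ((d.2 : ℤ) * n : ℤ) := by
    have : (sg d.2 * sg d.2) * (2 * t) = sg d.2 * n := by linear_combination sg d.2 * hn
    rw [sg_mul_self, one_mul] at this
    rw [this]; simp [sg]
  exact coe_ne_zero (r := 2 * t) (by linarith) (by linarith) (by rw [h3]; exact coe_int _)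

lemma ev_avoid {F : Set S} (hF : F.Finite) (d : D) : ∀ᶠ t : ℝ in 𝓝[>] 0, pt d t ∉ F := by
  have : ∀ p ∈ F, ∀ᶠ t : ℝ in 𝓝[>] 0, pt d t ≠ p := by
    intro p _
    by_cases hp : d.1 = p
    · filter_upwards [ev_lt (show (0 : ℝ) < 1 by norm_num)] with t ht h
      rw [← hp] at h
      simp only [pt, add_eq_left] at h
      rcases sg_cases d.2 with h2 | h2
      · rw [h2, one_mul] at h
        exact coe_ne_zero ht.1 ht.2 h
      · rw [h2, neg_one_mul, AddCircle.coe_neg, neg_eq_zero] at h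
        exact coe_ne_zero ht.1 ht.2 h
    · exact (pt_tendsto d).eventually (isOpen_compl_singleton.mem_nhds hp)
  filter_upwards [(eventually_all_finite hF).2 this] with t ht h
  exact ht _ h rfl

/-- The germ of `f` at `x` is `z ↦ s z + c`. -/
def Gm (f : S → S) (x : S) (s : ℤˣ) (c : S) : Prop := ∀ᶠ y in 𝓝 x, f y = aff s c y

lemma Gm.uniq {f : S → S} {x : S} {s s' : ℤˣ} {c c' : S} (h : Gm f x s c) (h' : Gm f x s' c') :
    s = s' ∧ c = c' := by
  have h1 : affD s c (x, 1) = affD s' c' (x, 1) := by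
    apply Pool.Agent.AD97.uniq
    filter_upwards [(pt_tendsto (x, 1)).eventually h, (pt_tendsto (x, 1)).eventually h']
      with t h1 h2
    rw [← aff_pt, ← aff_pt, ← h1, ← h2]
  have h2 := congrArg Prod.snd h1
  simp only [affD, mul_one] at h2
  subst h2
  have h3 := congrArg Prod.fst h1
  simp only [affD, aff, add_right_inj] at h3
  exact ⟨rfl, h3⟩

lemma L1 {f : S → S} {F : Set S} {Λ : Set S}
    (hloc : ∀ x ∉ F, ∃ s c, c ∈ Λ ∧ Gm f x s c) (d : D) {δ : ℝ} (hδ : 0 < δ)
    (hav : ∀ t ∈ Ioo 0 δ, pt d t ∉ F) : ∃ s c, c ∈ Λ ∧ ∀ t ∈ Ioo 0 δ, Gm f (pt d t) s c := by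
  have hm : δ / 2 ∈ Ioo 0 δ := ⟨by linarith, by linarith⟩
  obtain ⟨s, c, hc, h⟩ := hloc _ (hav _ hm)
  refine ⟨s, c, hc, ?_⟩
  have hpre := (isPreconnected_iff_subset_of_disjoint.1 (isPreconnected_Ioo (a := (0 : ℝ)) (b := δ)))
    {t | Gm f (pt d t) s c} (⋃ p ∈ {p : ℤˣ × S | p ≠ (s, c)}, {t | Gm f (pt d t) p.1 p.2})
    (isOpen_setOfPred_eventually_nhds.preimage (pt_continuous d))
    (isOpen_biUnion fun p _ => isOpen_setOfPred_eventually_nhds.preimage (pt_continuous d))
    (by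
      intro t ht
      obtain ⟨s', c', _, h'⟩ := hloc _ (hav _ ht)
      by_cases he : (s', c') = (s, c)
      · left
        simp only [Prod.mk.injEq] at he
        rw [he.1, he.2] at h'
        exact h'
      · right
        exact mem_biUnion (show (s', c') ∈ {p : ℤˣ × S | p ≠ (s, c)} from he) h')
    (by
      apply eq_empty_of_forall_notMem
      rintro t ⟨_, h1, h2⟩
      simp only [mem_iUnion] at h2
      obtain ⟨p, hp, h2⟩ := h2
      obtain ⟨h3, h4⟩ := Gm.uniq h1 h2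
      exact hp (Prod.ext h3.symm h4.symm))
  rcases hpre with hp | hp
  · exact fun t ht => hp ht
  · exfalso
    have := hp hm
    simp only [mem_iUnion] at this
    obtain ⟨p, hp, h2⟩ := this
    obtain ⟨h3, h4⟩ := Gm.uniq h h2
    exact hp (Prod.ext h3.symm h4.symm)

/-- The half of the circle containing `v`: `1` on `(0,1/2)`, `-1` otherwise. -/
noncomputable def side (v : S) : ℤˣ := by
  classical
  exact if ∃ r : ℝ, 0 < r ∧ r < 1 / 2 ∧ (r : S) = v then 1 else -1

lemma side_coe {r : ℝ} (h0 : 0 < r) (h1 : r < 1 / 2) (ε : ℤˣ) : side ((sg ε * r : ℝ) : S) = ε := by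
  unfold side
  rcases Int.units_eq_one_or ε with h | h
  · subst h
    rw [if_pos ⟨r, h0, h1, by simp [sg]⟩]
  · subst h
    rw [if_neg]
    rintro ⟨q, hq0, hq1, hq⟩
    have h2 : ((q + r : ℝ) : S) = 0 := by
      rw [AddCircle.coe_add, hq]; simp [sg]
    exact coe_ne_zero (by linarith) (by linarith) h2

lemma exists_side {v : S} (h : v + v ≠ 0) : ∃ r : ℝ, 0 < r ∧ r < 1 / 2 ∧
    v = ((sg (side v) * r : ℝ) : S) := by
  have key : ∃ (ε : ℤˣ) (r : ℝ), 0 < r ∧ r < 1 / 2 ∧ v = ((sg ε * r : ℝ) : S) := by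
    obtain ⟨q, hq0, rfl⟩ : ∃ q ∈ Ico (0 : ℝ) 1, (q : S) = v := by
      have h1 := AddCircle.coe_image_Ico_eq (1 : ℝ) 0
      rw [zero_add] at h1
      have h2 := mem_univ v
      rw [← h1] at h2
      exact h2
    have hq1 : q ≠ 0 := by
      rintro rfl
      exact h (by simp)
    have hq2 : q ≠ 1 / 2 := by
      rintro rfl
      apply h
      rw [← AddCircle.coe_add]
      norm_num
    rcases lt_or_gt_of_ne hq2 with h1 | h1
    · exact ⟨1, q, lt_of_le_of_ne hq0.1 hq1.symm, h1, by simp [sg]⟩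
    · refine ⟨-1, 1 - q, by linarith [hq0.2], by linarith, ?_⟩
      have h2 : (sg (-1) * (1 - q) : ℝ) = q - ((1 : ℤ) : ℝ) := by simp [sg]
      rw [h2, AddCircle.coe_sub, coe_int, sub_zero]
  obtain ⟨ε, r, h0, h1, h2⟩ := key
  exact ⟨r, h0, h1, by rw [h2, side_coe h0 h1]⟩

lemma side_smul {v : S} (h : v + v ≠ 0) (s : ℤˣ) : side ((s : ℤ) • v) = s * side v := by
  obtain ⟨r, h0, h1, h2⟩ := exists_side h
  conv_lhs => rw [h2, smul_coe, ← mul_assoc, ← sg_mul, side_coe h0 h1]

/-! ### The two arithmetic claims -/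

section arith

variable {m N : ℕ} (hm : 0 < m) (hN : 0 < N)
include hm hN

omit hm in
private lemma pN : (0 : ℝ) < N := by exact_mod_cast hN
omit hN in
private lemma pm : (0 : ℝ) < m := by exact_mod_cast hm

/-- the quarter point -/
noncomputable def qp (M : ℕ) (x : S) (ε : ℤˣ) : S := x + ((sg ε * (1 / (4 * M)) : ℝ) : S)

omit hm hN in
lemma nsmul_qp (M : ℕ) (hM : 0 < M) {x : S} (hx : M • x = 0) (ε : ℤˣ) :
    M • qp M x ε = ((sg ε * (1 / 4) : ℝ) : S) := by
  have : (0 : ℝ) < M := by exact_mod_cast hM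
  rw [qp, smul_add, hx, zero_add, nsmul_coe]
  congr 1
  field_simp

omit hm hN in
lemma quarter_inj {ε δ : ℤˣ} (h : ((sg ε * (1 / 4) : ℝ) : S) = ((sg δ * (1 / 4) : ℝ) : S)) :
    ε = δ := by
  rw [← side_coe (r := 1 / 4) (by norm_num) (by norm_num) ε,
    ← side_coe (r := 1 / 4) (by norm_num) (by norm_num) δ, h]

lemma qp_side_ne {x : S} (hx : (m * N) • x = 0) (ε : ℤˣ) :
    m • qp (m * N) x ε + m • qp (m * N) x ε ≠ 0 := by
  intro h
  have h1 : N • (m • qp (m * N) x ε + m • qp (m * N) x ε) = 0 := by rw [h, smul_zero]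
  rw [smul_add, smul_smul, mul_comm N m, nsmul_qp _ (Nat.mul_pos hm hN) hx, ← AddCircle.coe_add] at h1
  have h2 : (1 / 2 : ℝ) = sg ε * (sg ε * (1 / 4) + sg ε * (1 / 4)) := by
    linear_combination (-1 / 2 : ℝ) * sg_mul_self ε
  have h3 : (((1 / 2 : ℝ)) : S) = 0 := by rw [h2, ← smul_coe, h1, smul_zero]
  exact coe_ne_zero (by norm_num) (by norm_num) h3

/-- Claim A. -/
lemma claimA {x : S} (hx : (m * N) • x = 0) (hx' : m • x ≠ 0) (ε : ℤˣ) {w : S}
    (hw : w = qp (m * N) x ε - ((sg (side (m • qp (m * N) x ε)) * (1 / (4 * (m * N : ℕ))) : ℝ) : S)) :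
    (m * N) • w + (m * N) • w = 0 ∧ m • w + m • w ≠ 0 ∧
      side (m • w) = side (m • qp (m * N) x ε) := by
  have hN' := pN hN
  have hm' := pm hm
  have hv := qp_side_ne hm hN hx ε
  obtain ⟨r, h0, h1, h2⟩ := exists_side hv
  have hMq : (m * N) • qp (m * N) x ε = ((sg ε * (1 / 4) : ℝ) : S) :=
    nsmul_qp _ (Nat.mul_pos hm hN) hx ε
  set δ := side (m • qp (m * N) x ε) with hδ
  have h3 : m • w = ((sg δ * (r - 1 / (4 * N)) : ℝ) : S) := by
    rw [hw, smul_sub, h2, nsmul_coe, ← AddCircle.coe_sub]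
    congr 1
    push_cast
    field_simp
  -- `N r` is congruent to `δ ε / 4`
  have h4 : ((sg δ * (N * r) : ℝ) : S) = ((sg ε * (1 / 4) : ℝ) : S) := by
    rw [← hMq, show (m * N) • qp (m * N) x ε = N • m • qp (m * N) x ε by
      rw [smul_smul, mul_comm N m], h2, nsmul_coe]
    congr 1; ring
  have h5 : 1 / (4 * N) < r := by
    obtain ⟨n, hn⟩ := coe_eq_int h4
    have h6 : N * r = sg δ * sg ε / 4 + ((δ : ℤ) * n : ℤ) := by
      have : (sg δ * sg δ) * (N * r) = sg δ * sg ε / 4 + sg δ * n := by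
        linear_combination sg δ * hn
      rw [sg_mul_self, one_mul] at this
      rw [this]; simp [sg]
    obtain ⟨k, hk⟩ : ∃ k : ℤ, k = (δ : ℤ) * n := ⟨_, rfl⟩
    rw [← hk] at h6
    have hNr : 0 < N * r := by positivity
    rw [div_lt_iff₀ (by positivity)]
    rcases unit_eq_or ε δ with he | he
    · rw [he, sg_mul_self] at h6
      have hk1 : 0 ≤ k := by
        have : (-1 : ℝ) < k := by linarith
        have : -1 < k := by exact_mod_cast this
        omega
      rcases hk1.eq_or_lt with hk0 | hk0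
      · exfalso
        apply hx'
        have h7 : r = 1 / (4 * N) := by
          rw [← hk0] at h6
          field_simp
          push_cast at h6
          linarith
        have h8 : m • x = m • qp (m * N) x ε - ((sg ε * (1 / (4 * N)) : ℝ) : S) := by
          rw [qp, smul_add, nsmul_coe]
          rw [add_sub_assoc, ← AddCircle.coe_sub]
          have : (m * (sg ε * (1 / (4 * ((m * N : ℕ) : ℝ)))) - sg ε * (1 / (4 * N)) : ℝ) = 0 := by
            push_cast
            field_simp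
            ring
          rw [this]; simp
        rw [h8, h2, h7, he, sub_self]
      · have : (1 : ℝ) ≤ k := by exact_mod_cast hk0
        linarith
    · have h7 : sg δ * sg ε = -1 := by rw [he, sg_neg, mul_neg, sg_mul_self]
      rw [h7] at h6
      have hk1 : 0 < k := by
        have : (0 : ℝ) < k := by linarith
        exact_mod_cast this
      have : (1 : ℝ) ≤ k := by exact_mod_cast hk1
      linarith
  have hN4 : 0 < 1 / (4 * (N : ℝ)) := by positivity
  have h6 : side (m • w) = δ := by rw [h3, side_coe (by linarith) (by linarith)]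
  refine ⟨?_, ?_, h6⟩
  · rw [hw, smul_sub, hMq, nsmul_coe]
    have h7 : (((m * N : ℕ) : ℝ) * (sg δ * (1 / (4 * ((m * N : ℕ) : ℝ)))) : ℝ) = sg δ * (1 / 4) := by
      push_cast
      field_simp
    rw [h7, ← AddCircle.coe_sub, ← AddCircle.coe_add]
    rcases unit_eq_or ε δ with he | he
    · rw [he]; simp
    · rw [he, sg_neg]
      have : (-sg δ * (1 / 4) - sg δ * (1 / 4) + (-sg δ * (1 / 4) - sg δ * (1 / 4)) : ℝ) =
          ((-(δ : ℤ) : ℤ) : ℝ) := by simp [sg]; ring
      rw [this]; exact coe_int _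
  · intro h
    rw [h3, ← AddCircle.coe_add] at h
    have h7 : (2 * (r - 1 / (4 * N)) : ℝ) =
        sg δ * (sg δ * (r - 1 / (4 * N)) + sg δ * (r - 1 / (4 * N))) := by
      linear_combination (-2 * (r - 1 / (4 * N))) * sg_mul_self δ
    have h8 : ((2 * (r - 1 / (4 * N)) : ℝ) : S) = 0 := by rw [h7, ← smul_coe, h, smul_zero]
    exact coe_ne_zero (by linarith) (by linarith) h8

/-- Claim B. -/
lemma claimB {w : S} (hw : (m * N) • w + (m * N) • w = 0) (hw' : m • w + m • w ≠ 0) :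
    ∃ (x : S) (ε : ℤˣ), (m * N) • x = 0 ∧ m • x ≠ 0 ∧
      w = qp (m * N) x ε - ((sg (side (m • qp (m * N) x ε)) * (1 / (4 * (m * N : ℕ))) : ℝ) : S) := by
  have hN' := pN hN
  have hm' := pm hm
  obtain ⟨r, h0, h1, h2⟩ := exists_side hw'
  set δ := side (m • w) with hδ
  obtain ⟨y, hy⟩ : ∃ y, y = w + ((sg δ * (1 / (4 * (m * N : ℕ))) : ℝ) : S) := ⟨_, rfl⟩
  have h3 : m • y = ((sg δ * (r + 1 / (4 * N)) : ℝ) : S) := by
    rw [hy, smul_add, h2, nsmul_coe, ← AddCircle.coe_add]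
    congr 1
    push_cast
    field_simp
  have hr : r + 1 / (4 * N) < 1 / 2 := by
    have h4 : ((sg δ * (2 * (N * r)) : ℝ) : S) = 0 := by
      have : (sg δ * (2 * (N * r)) : ℝ) = N * (sg δ * r) + N * (sg δ * r) := by ring
      rw [this, AddCircle.coe_add, ← nsmul_coe, ← h2, smul_smul, mul_comm N m, hw]
    have h5 : ((2 * (N * r) : ℝ) : S) = 0 := by
      have : (2 * (N * r) : ℝ) = sg δ * (sg δ * (2 * (N * r))) := by
        linear_combination (-2 * (N * r)) * sg_mul_self δ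
      rw [this, ← smul_coe, h4, smul_zero]
    obtain ⟨k, hk⟩ := coe_zero_int h5
    have h6 : (k : ℝ) < N := by nlinarith
    have h7 : k + 1 ≤ (N : ℤ) := by
      have : k < (N : ℤ) := by exact_mod_cast h6
      omega
    have h8 : (k : ℝ) + 1 ≤ N := by exact_mod_cast h7
    have h9 : r + 1 / (4 * N) = (N * r + 1 / 4) / N := by field_simp
    rw [h9, div_lt_iff₀ hN']
    linarith
  have hN4 : 0 < 1 / (4 * (N : ℝ)) := by positivity
  have h4 : side (m • y) = δ := by rw [h3, side_coe (by linarith) hr]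
  obtain ⟨ε, hε⟩ : ∃ ε : ℤˣ, (m * N) • y = ((sg ε * (1 / 4) : ℝ) : S) := by
    have h5 : (m * N) • y = (m * N) • w + ((sg δ * (1 / 4) : ℝ) : S) := by
      rw [hy, smul_add, nsmul_coe]
      congr 2
      push_cast
      field_simp
    obtain ⟨q, hq⟩ : ∃ q : ℝ, (q : S) = (m * N) • w := ⟨_, (QuotientAddGroup.mk_surjective _).choose_spec⟩
    rw [← hq, ← AddCircle.coe_add] at hw
    obtain ⟨k, hk⟩ := coe_zero_int hw
    rcases Int.even_or_odd' k with ⟨j, hj | hj⟩
    · refine ⟨δ, ?_⟩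
      rw [h5, ← hq]
      have : q = (j : ℤ) := by rw [hj] at hk; push_cast at hk; linarith
      rw [this, coe_int, zero_add]
    · refine ⟨-δ, ?_⟩
      rw [h5, ← hq, ← AddCircle.coe_add]
      have h6 : q = j + 1 / 2 := by rw [hj] at hk; push_cast at hk; linarith
      rcases Int.units_eq_one_or δ with h | h
      · rw [h, h6]
        have : ((j : ℝ) + 1 / 2 + sg 1 * (1 / 4) : ℝ) = ((j + 1 : ℤ) : ℝ) + sg (-1) * (1 / 4) := by
          simp [sg]; ring
        rw [this, AddCircle.coe_add, coe_int, zero_add]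
      · rw [h, h6]
        have : ((j : ℝ) + 1 / 2 + sg (-1) * (1 / 4) : ℝ) = ((j : ℤ) : ℝ) + sg (- -1) * (1 / 4) := by
          simp [sg]; ring
        rw [this, AddCircle.coe_add, coe_int, zero_add]
  obtain ⟨x, hx⟩ : ∃ x, x = y - ((sg ε * (1 / (4 * (m * N : ℕ))) : ℝ) : S) := ⟨_, rfl⟩
  have hyx : y = qp (m * N) x ε := by rw [qp, hx]; simp
  refine ⟨x, ε, ?_, ?_, ?_⟩
  · rw [hx, smul_sub, hε, nsmul_coe, ← AddCircle.coe_sub]
    have : (sg ε * (1 / 4) - ((m * N : ℕ) : ℝ) * (sg ε * (1 / (4 * ((m * N : ℕ) : ℝ)))) : ℝ) = 0 := by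
      push_cast
      field_simp
      ring
    rw [this]; simp
  · intro h
    have h5 : m • y = ((sg ε * (1 / (4 * N)) : ℝ) : S) := by
      rw [hyx, qp, smul_add, h, zero_add, nsmul_coe]
      congr 1
      push_cast
      field_simp
    rw [h3] at h5
    rcases unit_eq_or ε δ with he | he
    · rw [he, mul_add, AddCircle.coe_add, add_eq_right] at h5
      have : (r : S) = 0 := by
        have h6 : r = sg δ * (sg δ * r) := by linear_combination (-r) * sg_mul_self δ
        rw [h6, ← smul_coe, h5, smul_zero]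
      exact coe_ne_zero h0 (by linarith) this
    · have h6 : ((r + 1 / (4 * N) + 1 / (4 * N) : ℝ) : S) = 0 := by
        have h7 : (r + 1 / (4 * N) + 1 / (4 * N) : ℝ) =
            sg δ * (sg δ * (r + 1 / (4 * N)) - sg ε * (1 / (4 * N))) := by
          rw [he, sg_neg]
          linear_combination (-(r + 1 / (4 * N) + 1 / (4 * N))) * sg_mul_self δ
        rw [h7, ← smul_coe, AddCircle.coe_sub, h5, sub_self, smul_zero]
      have h8 : 1 / (4 * (N : ℝ)) ≤ 1 / 4 := by
        apply one_div_le_one_div_of_le (by norm_num)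
        have : (1 : ℝ) ≤ N := by exact_mod_cast hN
        linarith
      exact coe_ne_zero (by linarith) (by linarith) h6
  · rw [← hyx, h4, hy]; simp

end arith

end Pool.Agent.AD97
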