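import Pool.Agent.AD97.A

/-!
The bijection between one-sided points over a torsion subgroup `Λ` and the points `x` with
`2 x ∈ Λ`, and the group of realized permutations. Helper file for MP_ad338c_an.
-/

set_option autoImplicit false

open Filter Set Topology Equiv

namespace Pool.Agent.AD97

/-- `Λ` is the increasing union of the groups of `m n`-torsion points. -/
structure Chain (Λ : AddSubgroup S) (m : ℕ → ℕ) : Prop where
  zero : m 0 = 1
  pos : ∀ n, 0 < m n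
  dvd : ∀ n, m n ∣ m (n + 1)
  mem : ∀ x, x ∈ Λ ↔ ∃ n, m n • x = 0

lemma lcm_mem (Λ : AddSubgroup S) {a b : ℕ} (ha : 0 < a) (hb : 0 < b)
    (h1 : ((1 / a : ℝ) : S) ∈ Λ) (h2 : ((1 / b : ℝ) : S) ∈ Λ) :
    ((1 / (Nat.lcm a b : ℕ) : ℝ) : S) ∈ Λ := by
  have ha' : (0 : ℝ) < a := by exact_mod_cast ha
  have hb' : (0 : ℝ) < b := by exact_mod_cast hb
  have hg : (0 : ℝ) < (Nat.gcd a b : ℕ) := by exact_mod_cast Nat.gcd_pos_of_pos_left b ha
  have h3 : ((Nat.gcd a b : ℕ) : ℝ) * (Nat.lcm a b : ℕ) = a * b := by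
    exact_mod_cast Nat.gcd_mul_lcm a b
  have h4 : ((Nat.gcd a b : ℕ) : ℝ) = a * (Nat.gcdA a b : ℤ) + b * (Nat.gcdB a b : ℤ) := by
    exact_mod_cast Nat.gcd_eq_gcd_ab a b
  have h5 : (1 / ((Nat.lcm a b : ℕ) : ℝ)) =
      (Nat.gcdA a b : ℤ) • (1 / b : ℝ) + (Nat.gcdB a b : ℤ) • (1 / a : ℝ) := by
    have hl : ((Nat.lcm a b : ℕ) : ℝ) = a * b / (Nat.gcd a b : ℕ) := by
      rw [eq_div_iff hg.ne', mul_comm]; exact h3
    rw [hl, zsmul_eq_mul, zsmul_eq_mul]
    field_simp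
    linarith
  rw [h5, AddCircle.coe_add, AddCircle.coe_zsmul, AddCircle.coe_zsmul]
  exact Λ.add_mem (Λ.zsmul_mem h2 _) (Λ.zsmul_mem h1 _)

open Classical in
/-- The chain of orders. -/
noncomputable def mseq (Λ : AddSubgroup S) : ℕ → ℕ
  | 0 => 1
  | n + 1 => if ((1 / ((n + 1 : ℕ) : ℝ) : ℝ) : S) ∈ Λ then Nat.lcm (mseq Λ n) (n + 1) else mseq Λ n

lemma exists_chain {Λ : AddSubgroup S} (hΛ : ∀ x ∈ Λ, IsOfFinAddOrder x) :
    ∃ m, Chain Λ m := by
  classical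
  obtain ⟨m, hm⟩ : ∃ m : ℕ → ℕ, m = mseq Λ := ⟨_, rfl⟩
  have h00 : m 0 = 1 := by rw [hm, mseq]
  have hs : ∀ n, m (n + 1) =
    if ((1 / ((n + 1 : ℕ) : ℝ) : ℝ) : S) ∈ Λ then Nat.lcm (m n) (n + 1) else m n := fun n => by
      rw [hm, mseq]
  have hpos : ∀ n, 0 < m n := by
    intro n
    induction n with
    | zero => rw [h00]; exact Nat.one_pos
    | succ n ih =>
      rw [hs]
      split_ifs
      · exact Nat.lcm_pos ih (Nat.succ_pos n)
      · exact ih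
  have hone : ∀ n : ℕ, ((1 / ((m n : ℕ) : ℝ) : ℝ) : S) ∈ Λ := by
    intro n
    induction n with
    | zero =>
      have : ((1 / (m 0 : ℝ) : ℝ)) = ((1 : ℤ) : ℝ) := by simp [h00]
      rw [this, coe_int]
      exact Λ.zero_mem
    | succ n ih =>
      rw [hs]
      split_ifs with h
      · exact lcm_mem Λ (hpos n) (Nat.succ_pos n) ih h
      · exact ih
  refine ⟨m, h00, hpos, fun n => ?_, fun x => ⟨fun hx => ?_, ?_⟩⟩
  · rw [hs]
    split_ifs
    · exact Nat.dvd_lcm_left _ _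
    · exact dvd_rfl
  · have ho := (hΛ x hx).addOrderOf_pos
    obtain ⟨k, hk1, -, hk⟩ := AddCircle.exists_gcd_eq_one_of_isOfFinAddOrder (hΛ x hx)
    obtain ⟨N, hN⟩ : ∃ N, N = addOrderOf x := ⟨_, rfl⟩
    rw [← hN] at ho hk1 hk
    have hN0 : (0 : ℝ) < N := by exact_mod_cast ho
    have h1 : ((1 / (N : ℝ) : ℝ) : S) ∈ Λ := by
      have h4 : ((Nat.gcd k N : ℕ) : ℝ) = k * (Nat.gcdA k N : ℤ) + N * (Nat.gcdB k N : ℤ) := by
        exact_mod_cast Nat.gcd_eq_gcd_ab k N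
      rw [hk1] at h4
      have h5 : (1 / (N : ℝ)) = (Nat.gcdA k N : ℤ) • ((k : ℝ) / N * 1) +
          ((Nat.gcdB k N : ℤ) : ℝ) := by
        rw [zsmul_eq_mul]
        field_simp
        push_cast at h4
        linarith
      rw [h5, AddCircle.coe_add, AddCircle.coe_zsmul, hk, coe_int, add_zero]
      exact Λ.zsmul_mem hx _
    refine ⟨N, ?_⟩
    have h2 : N ∣ m N := by
      obtain ⟨n, rfl⟩ : ∃ n, N = n + 1 := ⟨N - 1, by omega⟩
      rw [hs, if_pos h1]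
      exact Nat.dvd_lcm_right _ _
    obtain ⟨q, hq⟩ := h2
    rw [hq, mul_comm, mul_smul, hN, addOrderOf_nsmul_eq_zero, smul_zero]
  · rintro ⟨n, hn⟩
    obtain ⟨k, -, hk⟩ := (AddCircle.nsmul_eq_zero_iff (hpos n)).1 hn
    rw [← hk]
    have : ((k : ℝ) / (m n : ℝ) * 1 : ℝ) = (k : ℕ) • (1 / (m n : ℝ)) := by
      rw [nsmul_eq_mul]; ring
    rw [this, AddCircle.coe_nsmul]
    exact Λ.nsmul_mem (hone n) _

section chain

variable {Λ : AddSubgroup S} {m : ℕ → ℕ} (c : Chain Λ m)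
include c

lemma Chain.le_dvd {i j : ℕ} (h : i ≤ j) : m i ∣ m j := by
  induction j, h using Nat.le_induction with
  | base => exact dvd_rfl
  | succ j _ ih => exact ih.trans (c.dvd j)

lemma Chain.zero_mono {i j : ℕ} (h : i ≤ j) {x : S} (hx : m i • x = 0) : m j • x = 0 := by
  obtain ⟨q, hq⟩ := c.le_dvd h
  rw [hq, mul_comm, mul_smul, hx, smul_zero]

omit c in
/-- The index `i` with `m (i+1) x = 0 ≠ m i x`. -/
noncomputable def pr (m : ℕ → ℕ) (x : S) : ℕ := sInf {n | m (n + 1) • x = 0}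

lemma Chain.pr_spec {x : S} (hx : x ∈ Λ) (h0 : x ≠ 0) :
    m (pr m x + 1) • x = 0 ∧ m (pr m x) • x ≠ 0 := by
  have hne : {n | m (n + 1) • x = 0}.Nonempty := by
    obtain ⟨n, hn⟩ := (c.mem x).1 hx
    exact ⟨n, c.zero_mono (Nat.le_succ n) hn⟩
  have h1 := Nat.sInf_mem hne
  refine ⟨h1, fun h => ?_⟩
  rcases Nat.eq_zero_or_pos (pr m x) with h2 | h2
  · rw [h2, c.zero, one_smul] at h
    exact h0 h
  · obtain ⟨k, hk⟩ : ∃ k, pr m x = k + 1 := ⟨pr m x - 1, by omega⟩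
    rw [hk] at h
    have : pr m x ≤ k := Nat.sInf_le h
    omega

lemma Chain.pr_eq {x : S} {i : ℕ} (h1 : m (i + 1) • x = 0) (h2 : m i • x ≠ 0) : pr m x = i := by
  refine le_antisymm (Nat.sInf_le h1) ?_
  have h3 : m (pr m x + 1) • x = 0 := Nat.sInf_mem (s := {n | m (n + 1) • x = 0}) ⟨i, h1⟩
  by_contra h
  exact h2 (c.zero_mono (by omega) h3)

omit c in
/-- The bijection. -/
noncomputable def Phi (m : ℕ → ℕ) (d : D) : S := by
  classical
  exact if d.1 = 0 then (if d.2 = 1 then 0 else ((1 / 2 : ℝ) : S)) else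
    qp (m (pr m d.1 + 1)) d.1 d.2 -
      ((sg (side (m (pr m d.1) • qp (m (pr m d.1 + 1)) d.1 d.2)) *
        (1 / (4 * ((m (pr m d.1 + 1) : ℕ) : ℝ))) : ℝ) : S)

omit c in
lemma Phi_zero (d : D) (h : d.1 = 0) : Phi m d = if d.2 = 1 then 0 else ((1 / 2 : ℝ) : S) := by
  simp [Phi, h]

omit c in
lemma Phi_ne (d : D) (h : d.1 ≠ 0) {i : ℕ} (hi : pr m d.1 = i) : Phi m d =
    qp (m (i + 1)) d.1 d.2 - ((sg (side (m i • qp (m (i + 1)) d.1 d.2)) *
        (1 / (4 * ((m (i + 1) : ℕ) : ℝ))) : ℝ) : S) := by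
  simp [Phi, h, hi]

lemma Chain.Phi_spec {d : D} (hd : d.1 ∈ Λ) (h0 : d.1 ≠ 0) {i : ℕ} (hi : pr m d.1 = i) :
    m (i + 1) • Phi m d + m (i + 1) • Phi m d = 0 ∧ m i • Phi m d + m i • Phi m d ≠ 0 ∧
      side (m i • Phi m d) = side (m i • qp (m (i + 1)) d.1 d.2) := by
  obtain ⟨h1, h2⟩ := c.pr_spec hd h0
  rw [hi] at h1 h2
  obtain ⟨N, hN⟩ := c.dvd i
  have hNpos : 0 < N := by
    rcases Nat.eq_zero_or_pos N with h | h
    · have := c.pos (i + 1)
      rw [hN, h, mul_zero] at this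
      exact absurd this (lt_irrefl 0)
    · exact h
  have h3 := Phi_ne (m := m) d h0 hi
  rw [hN] at h1 h3 ⊢
  exact claimA (c.pos i) hNpos h1 h2 d.2 h3

omit c in
lemma apply_inv_self' (T : Perm D) (d : D) : T (T⁻¹ d) = d := by
  rw [← Perm.mul_apply, mul_inv_cancel]; rfl

omit c in
lemma half_or {w : S} (h : w + w = 0) : w = 0 ∨ w = ((1 / 2 : ℝ) : S) := by
  obtain ⟨q, rfl⟩ : ∃ q : ℝ, (q : S) = w := QuotientAddGroup.mk_surjective w
  rw [← AddCircle.coe_add] at h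
  obtain ⟨k, hk⟩ := coe_zero_int h
  rcases Int.even_or_odd' k with ⟨j, hj | hj⟩
  · left
    have : q = (j : ℤ) := by rw [hj] at hk; push_cast at hk; linarith
    rw [this, coe_int]
  · right
    have : q = ((j : ℤ) : ℝ) + 1 / 2 := by rw [hj] at hk; push_cast at hk; linarith
    rw [this, AddCircle.coe_add, coe_int, zero_add]

omit c in
lemma half_ne : ((1 / 2 : ℝ) : S) ≠ 0 := coe_ne_zero (by norm_num) (by norm_num)

omit c in
lemma half_add : ((1 / 2 : ℝ) : S) + ((1 / 2 : ℝ) : S) = 0 := by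
  rw [← AddCircle.coe_add]
  have : ((1 / 2 : ℝ) + 1 / 2) = ((1 : ℤ) : ℝ) := by norm_num
  rw [this, coe_int]

omit c in
lemma Chain.Phi_zero_add {d : D} (h : d.1 = 0) : Phi m d + Phi m d = 0 := by
  rw [Phi_zero d h]
  split_ifs
  · simp
  · exact half_add

lemma Chain.pr_Phi {d : D} (hd : d.1 ∈ Λ) (h0 : d.1 ≠ 0) :
    pr m (Phi m d + Phi m d) = pr m d.1 := by
  obtain ⟨h1, h2, -⟩ := c.Phi_spec hd h0 rfl
  exact c.pr_eq (by rw [smul_add]; exact h1) (by rw [smul_add]; exact h2)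

lemma Chain.bij : BijOn (Phi m) {d : D | d.1 ∈ Λ} {w : S | w + w ∈ Λ} := by
  refine ⟨fun d hd => ?_, fun d hd d' hd' h => ?_, fun w hw => ?_⟩
  · by_cases h0 : d.1 = 0
    · show Phi m d + Phi m d ∈ Λ
      rw [Chain.Phi_zero_add h0]
      exact Λ.zero_mem
    · obtain ⟨h1, -, -⟩ := c.Phi_spec hd h0 rfl
      exact (c.mem _).2 ⟨_, by rw [smul_add]; exact h1⟩
  · by_cases h0 : d.1 = 0 <;> by_cases h0' : d'.1 = 0
    · refine Prod.ext (h0.trans h0'.symm) ?_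
      rw [Phi_zero d h0, Phi_zero d' h0'] at h
      rcases Int.units_eq_one_or d.2 with h1 | h1 <;>
        rcases Int.units_eq_one_or d'.2 with h2 | h2
      · rw [h1, h2]
      · rw [h1, h2, if_pos rfl, if_neg (by decide)] at h
        exact absurd h.symm half_ne
      · rw [h1, h2, if_pos rfl, if_neg (by decide)] at h
        exact absurd h half_ne
      · rw [h1, h2]
    · obtain ⟨-, h2, -⟩ := c.Phi_spec hd' h0' rfl
      rw [← smul_add, ← h, Chain.Phi_zero_add h0, smul_zero] at h2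
      exact absurd rfl h2
    · obtain ⟨-, h2, -⟩ := c.Phi_spec hd h0 rfl
      rw [← smul_add, h, Chain.Phi_zero_add h0', smul_zero] at h2
      exact absurd rfl h2
    · obtain ⟨i, hi⟩ : ∃ i, pr m d.1 = i := ⟨_, rfl⟩
      have hi' : pr m d'.1 = i := by rw [← c.pr_Phi hd' h0', ← h, c.pr_Phi hd h0, hi]
      obtain ⟨-, -, h1⟩ := c.Phi_spec hd h0 hi
      obtain ⟨-, -, h2⟩ := c.Phi_spec hd' h0' hi'
      have h3 := Phi_ne (m := m) d h0 hi
      have h4 := Phi_ne (m := m) d' h0' hi'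
      rw [← h1] at h3
      rw [← h2, ← h] at h4
      have h5 : qp (m (i + 1)) d.1 d.2 = qp (m (i + 1)) d'.1 d'.2 := by
        rw [h3] at h4
        rw [← h3] at h4
        rw [eq_sub_iff_add_eq] at h3 h4
        rw [← h3, ← h4]
      have hz := (c.pr_spec hd h0).1
      have hz' := (c.pr_spec hd' h0').1
      rw [hi] at hz
      rw [hi'] at hz'
      have h6 := nsmul_qp _ (c.pos (i + 1)) hz d.2
      have h7 := nsmul_qp _ (c.pos (i + 1)) hz' d'.2
      rw [h5, h7] at h6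
      have h8 := quarter_inj h6
      refine Prod.ext ?_ h8.symm
      simp only [qp, h8, add_left_inj] at h5
      exact h5
  · by_cases h0 : w + w = 0
    · rcases half_or h0 with h | h
      · exact ⟨(0, 1), Λ.zero_mem, by rw [Phi_zero _ rfl]; simp [h]⟩
      · exact ⟨(0, -1), Λ.zero_mem, by rw [Phi_zero _ rfl, h, if_neg (by decide)]⟩
    · obtain ⟨h1, h2⟩ := c.pr_spec hw h0
      obtain ⟨i, hi⟩ : ∃ i, pr m (w + w) = i := ⟨_, rfl⟩
      rw [hi] at h1 h2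
      obtain ⟨N, hN⟩ := c.dvd i
      have hNpos : 0 < N := by
        rcases Nat.eq_zero_or_pos N with h | h
        · have := c.pos (i + 1)
          rw [hN, h, mul_zero] at this
          exact absurd this (lt_irrefl 0)
        · exact h
      rw [smul_add] at h1 h2
      rw [hN] at h1
      obtain ⟨x, ε, h3, h4, h5⟩ := claimB (c.pos i) hNpos h1 h2
      rw [← hN] at h3 h5
      have hx0 : x ≠ 0 := by
        rintro rfl
        exact h4 (smul_zero _)
      exact ⟨(x, ε), (c.mem x).2 ⟨_, h3⟩, by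
        rw [Phi_ne (m := m) (x, ε) hx0 (c.pr_eq h3 h4)]; exact h5.symm⟩

omit c in
/-- The inverse of the bijection. -/
noncomputable def Psi (Λ : AddSubgroup S) (m : ℕ → ℕ) : S → D :=
  Function.invFunOn (Phi m) {d : D | d.1 ∈ Λ}

lemma Chain.Psi_mem {w : S} (hw : w + w ∈ Λ) : (Psi Λ m w).1 ∈ Λ :=
  Function.invFunOn_mem (c.bij.surjOn hw)

lemma Chain.Phi_Psi {w : S} (hw : w + w ∈ Λ) : Phi m (Psi Λ m w) = w :=
  Function.invFunOn_eq (c.bij.surjOn hw)

lemma Chain.Psi_Phi {d : D} (hd : d.1 ∈ Λ) : Psi Λ m (Phi m d) = d :=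
  c.bij.injOn (c.Psi_mem (c.bij.mapsTo hd)) hd (c.Phi_Psi (c.bij.mapsTo hd))

/-! ### The action on the circle -/

omit c in
/-- The permutation of the circle attached to a permutation of the one-sided points. -/
noncomputable def act (Λ : AddSubgroup S) (m : ℕ → ℕ) (T : Perm D) (x : S) : S := by
  classical
  exact if x + x ∈ Λ then Phi m (T (Psi Λ m x)) else (T (x, 1)).1

omit c in
lemma act_pos {T : Perm D} {x : S} (h : x + x ∈ Λ) :
    act Λ m T x = Phi m (T (Psi Λ m x)) := by simp [act, h]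

omit c in
lemma act_neg {T : Perm D} {x : S} (h : x + x ∉ Λ) : act Λ m T x = (T (x, 1)).1 := by
  simp [act, h]

omit c in
/-- The first two conditions. -/
def Nat1 (Λ : AddSubgroup S) (T : Perm D) : Prop :=
  (∀ d, ∃ s a, a ∈ Λ ∧ T d = affD s a d) ∧ ∀ x, x + x ∉ Λ → (T (x, 1)).1 = (T (x, -1)).1

omit c in
lemma aff_mem {s : ℤˣ} {a : S} (ha : a ∈ Λ) {x : S} : aff s a x ∈ Λ ↔ x ∈ Λ := by
  unfold aff
  rw [Λ.add_mem_cancel_right ha]
  constructor
  · intro h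
    have := Λ.zsmul_mem h (s : ℤ)
    rwa [smul_smul_self] at this
  · intro h
    exact Λ.zsmul_mem h _

omit c in
lemma aff_mem2 {s : ℤˣ} {a : S} (ha : a ∈ Λ) {x : S} :
    aff s a x + aff s a x ∈ Λ ↔ x + x ∈ Λ := by
  have : aff s a x + aff s a x = aff s (a + a) (x + x) := by
    unfold aff; rw [smul_add]; abel
  rw [this, aff_mem (Λ.add_mem ha ha)]

omit c in
lemma Nat1.mem {T : Perm D} (h : Nat1 Λ T) (d : D) : (T d).1 ∈ Λ ↔ d.1 ∈ Λ := by
  obtain ⟨s, a, ha, h1⟩ := h.1 d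
  rw [h1]
  exact aff_mem ha

omit c in
lemma Nat1.mem2 {T : Perm D} (h : Nat1 Λ T) (d : D) :
    (T d).1 + (T d).1 ∈ Λ ↔ d.1 + d.1 ∈ Λ := by
  obtain ⟨s, a, ha, h1⟩ := h.1 d
  rw [h1]
  exact aff_mem2 ha

omit c in
lemma Nat1.side_eq {T : Perm D} (h : Nat1 Λ T) {x : S} (hx : x + x ∉ Λ) (ε : ℤˣ) :
    (T (x, ε)).1 = (T (x, 1)).1 := by
  rcases Int.units_eq_one_or ε with h1 | h1
  · rw [h1]
  · rw [h1, h.2 x hx]

omit c in
lemma Nat1.mul {T U : Perm D} (h : Nat1 Λ T) (h' : Nat1 Λ U) : Nat1 Λ (T * U) := by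
  refine ⟨fun d => ?_, fun x hx => ?_⟩
  · obtain ⟨s, a, ha, h1⟩ := h'.1 d
    obtain ⟨s', a', ha', h2⟩ := h.1 (U d)
    refine ⟨s' * s, (s' : ℤ) • a + a', Λ.add_mem (Λ.zsmul_mem ha _) ha', ?_⟩
    rw [Perm.mul_apply, h2, h1]
    refine Prod.ext ?_ ?_
    · simp only [affD, aff, smul_add, smul_smul, Units.val_mul]
      abel
    · simp only [affD, mul_assoc]
  · simp only [Perm.mul_apply]
    have h1 := h'.2 x hx
    have h2 : (U (x, 1)).1 + (U (x, 1)).1 ∉ Λ := fun h3 => hx ((h'.mem2 (x, 1)).1 h3)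
    have h3 := h.side_eq h2 (U (x, 1)).2
    have h4 := h.side_eq h2 (U (x, -1)).2
    rw [h1] at h4
    exact h3.trans (by rw [h1]; exact h4.symm)

omit c in
lemma Nat1.inv {T : Perm D} (h : Nat1 Λ T) : Nat1 Λ T⁻¹ := by
  refine ⟨fun d => ?_, fun x hx => ?_⟩
  · obtain ⟨s, a, ha, h1⟩ := h.1 (T⁻¹ d)
    rw [apply_inv_self'] at h1
    refine ⟨s, -((s : ℤ) • a), Λ.neg_mem (Λ.zsmul_mem ha _), ?_⟩
    have h2 : d.1 = (s : ℤ) • (T⁻¹ d).1 + a := congrArg Prod.fst h1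
    have h3 : d.2 = s * (T⁻¹ d).2 := congrArg Prod.snd h1
    refine Prod.ext ?_ ?_
    · simp only [affD, aff, h2, smul_add, smul_smul_self]
      abel
    · simp only [affD, h3]
      rw [← mul_assoc, Int.units_mul_self, one_mul]
  · obtain ⟨d, hd⟩ : ∃ d, d = T⁻¹ (x, 1) := ⟨_, rfl⟩
    have h1 : T d = (x, 1) := by rw [hd, apply_inv_self']
    have h2 : d.1 + d.1 ∉ Λ := by
      intro h3
      have := (h.mem2 d).2 h3
      rw [h1] at this
      exact hx this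
    have h3 : (T (d.1, -d.2)).1 = x := by
      rw [h.side_eq h2, ← h.side_eq h2 d.2]
      exact congrArg Prod.fst h1
    have h4 : (T (d.1, -d.2)).2 = -1 := by
      rcases Int.units_eq_one_or (T (d.1, -d.2)).2 with h5 | h5
      · exfalso
        have h6 : T (d.1, -d.2) = T d := by rw [h1]; exact Prod.ext h3 h5
        have h7 := congrArg Prod.snd (T.injective h6)
        rcases Int.units_eq_one_or d.2 with h8 | h8 <;> rw [h8] at h7 <;> simp at h7
      · exact h5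
    have h5 : T⁻¹ (x, -1) = (d.1, -d.2) := by
      rw [Perm.inv_eq_iff_eq]
      exact (Prod.ext h3 h4).symm
    rw [h5, ← hd]

omit c in
lemma Nat1.one : Nat1 Λ (1 : Perm D) :=
  ⟨fun d => ⟨1, 0, Λ.zero_mem, by simp [affD, aff]⟩, fun x _ => rfl⟩

lemma Chain.act_mul {T U : Perm D} (h : Nat1 Λ T) (h' : Nat1 Λ U) (x : S) :
    act Λ m (T * U) x = act Λ m T (act Λ m U x) := by
  by_cases hx : x + x ∈ Λ
  · have h1 : (U (Psi Λ m x)).1 ∈ Λ := (h'.mem _).2 (c.Psi_mem hx)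
    rw [act_pos hx, act_pos hx, act_pos (c.bij.mapsTo h1), c.Psi_Phi h1]
    rfl
  · have h2 : (U (x, 1)).1 + (U (x, 1)).1 ∉ Λ := fun h3 => hx ((h'.mem2 (x, 1)).1 h3)
    rw [act_neg hx, act_neg hx, act_neg h2, ← h.side_eq h2 (U (x, 1)).2]
    rfl

lemma Chain.act_one (x : S) : act Λ m (1 : Perm D) x = x := by
  by_cases hx : x + x ∈ Λ
  · rw [act_pos hx]
    exact c.Phi_Psi hx
  · rw [act_neg hx]
    rfl

/-- The group of permutations of one-sided points which are germs of their own action. -/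
noncomputable def Chain.TT : Subgroup (Perm D) where
  carrier := {T | Nat1 Λ T ∧ ∀ d, ∀ᶠ t : ℝ in 𝓝[>] 0, act Λ m T (pt d t) = pt (T d) t}
  one_mem' := ⟨Nat1.one, fun d => Eventually.of_forall fun t => c.act_one _⟩
  mul_mem' := by
    rintro T U ⟨h1, h2⟩ ⟨h3, h4⟩
    refine ⟨h1.mul h3, fun d => ?_⟩
    filter_upwards [h4 d, h2 (U d)] with t ht ht'
    rw [c.act_mul h1 h3, ht, ht']
    rfl
  inv_mem' := by
    rintro T ⟨h1, h2⟩
    refine ⟨h1.inv, fun d => ?_⟩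
    filter_upwards [h2 (T⁻¹ d)] with t ht
    rw [apply_inv_self'] at ht
    rw [← ht, ← c.act_mul h1.inv h1, inv_mul_cancel, c.act_one]

noncomputable def Chain.hom : c.TT →* Perm S where
  toFun T := ⟨act Λ m T.1, act Λ m T.1⁻¹, fun x => by
    rw [← c.act_mul T.2.1.inv T.2.1, inv_mul_cancel, c.act_one], fun x => by
    rw [← c.act_mul T.2.1 T.2.1.inv, mul_inv_cancel, c.act_one]⟩
  map_one' := by
    ext x
    exact c.act_one x
  map_mul' T U := by
    ext x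
    exact c.act_mul T.2.1 U.2.1 x

lemma Chain.hom_apply (T : c.TT) (x : S) : c.hom T x = act Λ m T.1 x := rfl

lemma Chain.hom_inj (T : c.TT) (h : {x | c.hom T x ≠ x}.Finite) : T = 1 := by
  apply Subtype.ext
  ext1 d
  apply uniq
  filter_upwards [T.2.2 d, ev_avoid h d] with t h1 h2
  simp only [ne_eq, not_not, Chain.hom_apply] at h2
  rw [← h1, h2]
  rfl

end chain

end Pool.Agent.AD97
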