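import Pool.Agent.AD97.B

/-!
Every interval exchange with flips over a torsion group is realized. Helper for MP_ad338c_an.
-/

set_option autoImplicit false

open Filter Set Topology Equiv

namespace Pool.Agent.AD97

def PI (Λ : AddSubgroup S) (f : Perm S) : Prop :=
  ∃ F : Set S, F.Finite ∧ F ⊆ Λ ∧ ∀ x ∉ F, ∃ c ∈ Λ,
    (∀ᶠ y in 𝓝 x, f y = y + c) ∨ (∀ᶠ y in 𝓝 x, f y = -y + c)

section

variable {Λ : AddSubgroup S} {m : ℕ → ℕ} (c : Chain Λ m)
include c

omit c in
lemma finite_tors {N : ℕ} (hN : 0 < N) : {a : S | N • a = 0}.Finite := by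
  refine ((Finset.range N).finite_toSet.image
    (fun k : ℕ => (((k : ℝ) / N * 1 : ℝ) : S))).subset ?_
  intro a ha
  obtain ⟨k, hk, h⟩ := (AddCircle.nsmul_eq_zero_iff hN).1 ha
  exact ⟨k, by simpa using hk, h⟩

lemma Chain.exists_k {A : Set S} (hA : A.Finite) (h : A ⊆ Λ) : ∃ k, ∀ x ∈ A, m k • x = 0 := by
  induction A, hA using Set.Finite.induction_on with
  | empty => exact ⟨0, fun x hx => absurd hx (notMem_empty x)⟩
  | @insert a A _ _ ih =>
    obtain ⟨k, hk⟩ := ih fun x hx => h (mem_insert_of_mem _ hx)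
    obtain ⟨j, hj⟩ := (c.mem a).1 (h (mem_insert _ _))
    refine ⟨max k j, fun x hx => ?_⟩
    rcases mem_insert_iff.1 hx with rfl | hx
    · exact c.zero_mono (le_max_right k j) hj
    · exact c.zero_mono (le_max_left k j) (hk x hx)

omit c in
lemma exists_delta {F : Set S} (hF : F.Finite) (d : D) :
    ∃ δ : ℝ, 0 < δ ∧ ∀ t ∈ Ioo 0 δ, pt d t ∉ F := by
  have h := ev_avoid hF d
  obtain ⟨δ, h1, h2⟩ := (mem_nhdsGT_iff_exists_Ioo_subset).1 h
  exact ⟨δ, h1, fun t ht => h2 ht⟩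

omit c in
lemma nhd_mem (x : S) {δ δ' : ℝ} (h : 0 < δ) (h' : 0 < δ') :
    {x} ∪ (pt (x, 1) '' Ioo 0 δ ∪ pt (x, -1) '' Ioo 0 δ') ∈ 𝓝 x := by
  have h1 : IsOpen ((fun y : S => x + y) '' (((↑) : ℝ → S) '' Ioo (-δ') δ)) :=
    (isOpenMap_add_left x) _ (QuotientAddGroup.isOpenMap_coe _ isOpen_Ioo)
  refine mem_of_superset (h1.mem_nhds ⟨_, ⟨0, ⟨by linarith, h⟩, rfl⟩, by simp⟩) ?_
  rintro _ ⟨_, ⟨r, hr, rfl⟩, rfl⟩
  rcases lt_trichotomy r 0 with h2 | h2 | h2
  · right; right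
    refine ⟨-r, ⟨by linarith, by linarith [hr.1]⟩, ?_⟩
    simp [pt, sg]
  · left
    simp [h2]
  · right; left
    exact ⟨r, ⟨h2, hr.2⟩, by simp [pt, sg]⟩

lemma Chain.step1 {f : Perm S} (hf : PI Λ f) : ∃ k, ∃ F : Set S, F.Finite ∧
    (∀ x ∈ F, m k • x = 0) ∧ ∀ x ∉ F, ∃ s a, m k • a = 0 ∧ Gm f x s a := by
  obtain ⟨F, hF, hFΛ, hloc⟩ := hf
  have hloc' : ∀ x ∉ F, ∃ s a, a ∈ (Λ : Set S) ∧ Gm f x s a := by
    intro x hx
    obtain ⟨a, ha, h | h⟩ := hloc x hx
    · exact ⟨1, a, ha, by simpa [Gm, aff] using h⟩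
    · exact ⟨-1, a, ha, by simpa [Gm, aff] using h⟩
  have key : ∃ k, ∀ x ∈ (univ : Set S), x ∉ F → ∃ s a, m k • a = 0 ∧ Gm f x s a := by
    refine isCompact_univ.induction_on
      (p := fun U => ∃ k, ∀ x ∈ U, x ∉ F → ∃ s a, m k • a = 0 ∧ Gm f x s a) ?_ ?_ ?_ ?_
    · exact ⟨0, fun x hx => absurd hx (notMem_empty x)⟩
    · rintro s t hst ⟨k, hk⟩
      exact ⟨k, fun x hx => hk x (hst hx)⟩
    · rintro s t ⟨k, hk⟩ ⟨j, hj⟩
      refine ⟨max k j, fun x hx hxF => ?_⟩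
      rcases hx with hx | hx
      · obtain ⟨s, a, ha, h⟩ := hk x hx hxF
        exact ⟨s, a, c.zero_mono (le_max_left k j) ha, h⟩
      · obtain ⟨s, a, ha, h⟩ := hj x hx hxF
        exact ⟨s, a, c.zero_mono (le_max_right k j) ha, h⟩
    · intro x _
      obtain ⟨δ, hδ, h1⟩ := exists_delta hF (x, 1)
      obtain ⟨δ', hδ', h2⟩ := exists_delta hF (x, -1)
      obtain ⟨s1, a1, ha1, h3⟩ := L1 hloc' (x, 1) hδ h1
      obtain ⟨s2, a2, ha2, h4⟩ := L1 hloc' (x, -1) hδ' h2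
      obtain ⟨k1, hk1⟩ := (c.mem a1).1 ha1
      obtain ⟨k2, hk2⟩ := (c.mem a2).1 ha2
      obtain ⟨k0, hk0⟩ : ∃ k0, x ∉ F → ∃ s a, m k0 • a = 0 ∧ Gm f x s a := by
        by_cases hx : x ∈ F
        · exact ⟨0, fun h => absurd hx h⟩
        · obtain ⟨s, a, ha, h⟩ := hloc' x hx
          obtain ⟨k, hk⟩ := (c.mem a).1 ha
          exact ⟨k, fun _ => ⟨s, a, hk, h⟩⟩
      rw [nhdsWithin_univ]
      refine ⟨_, nhd_mem x hδ hδ', max k0 (max k1 k2), ?_⟩
      rintro y (hy | ⟨t, ht, rfl⟩ | ⟨t, ht, rfl⟩) hyF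
      · rw [mem_singleton_iff] at hy
        subst hy
        obtain ⟨s, a, ha, h⟩ := hk0 hyF
        exact ⟨s, a, c.zero_mono (le_max_left _ _) ha, h⟩
      · exact ⟨s1, a1, c.zero_mono ((le_max_left _ _).trans (le_max_right _ _)) hk1, h3 t ht⟩
      · exact ⟨s2, a2, c.zero_mono ((le_max_right _ _).trans (le_max_right _ _)) hk2, h4 t ht⟩
  obtain ⟨k, hk⟩ := key
  obtain ⟨j, hj⟩ := c.exists_k hF hFΛ
  refine ⟨max k j, F, hF, fun x hx => c.zero_mono (le_max_right k j) (hj x hx), fun x hx => ?_⟩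
  obtain ⟨s, a, ha, h⟩ := hk x (mem_univ x) hx
  exact ⟨s, a, c.zero_mono (le_max_left k j) ha, h⟩

omit c in
lemma nsmul_aff (n : ℕ) (s : ℤˣ) (a x : S) (ha : n • a = 0) :
    n • aff s a x = (s : ℤ) • (n • x) := by
  rw [aff, smul_add, ha, add_zero, smul_comm]

theorem Chain.exists_T {f : Perm S} (hf : PI Λ f) :
    ∃ T : c.TT, {x | c.hom T x ≠ f x}.Finite := by
  obtain ⟨k, F, hF, hFk, hloc⟩ := c.step1 hf
  have hloc' : ∀ x ∉ F, ∃ s a, a ∈ {a : S | m k • a = 0} ∧ Gm f x s a := hloc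
  have hex : ∀ d : D, ∃ s a, m k • a = 0 ∧
      ∀ᶠ t : ℝ in 𝓝[>] 0, f (pt d t) = pt (affD s a d) t := by
    intro d
    obtain ⟨δ, hδ, h1⟩ := exists_delta hF d
    obtain ⟨s, a, ha, h⟩ := L1 hloc' d hδ h1
    refine ⟨s, a, ha, ?_⟩
    filter_upwards [ev_lt hδ] with t ht
    rw [← aff_pt]
    exact (h t ht).self_of_nhds
  choose s a ha hg using hex
  obtain ⟨T0, hT0⟩ : ∃ T0 : D → D, T0 = fun d => affD (s d) (a d) d := ⟨_, rfl⟩
  have hT0' : ∀ d, T0 d = affD (s d) (a d) d := fun d => by rw [hT0]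
  have hg' : ∀ d, ∀ᶠ t : ℝ in 𝓝[>] 0, f (pt d t) = pt (T0 d) t := fun d => by
    rw [hT0']; exact hg d
  have hinj : Function.Injective T0 := by
    intro d d' h
    apply uniq
    filter_upwards [hg' d, hg' d'] with t h1 h2
    rw [h, ← h2] at h1
    exact f.injective h1
  have hsurj : Function.Surjective T0 := by
    intro d'
    let B : Set D := {d | ∃ s a, m k • a = 0 ∧ d.1 = aff s a d'.1}
    have hB : B.Finite := by
      refine (((finite_tors (c.pos k)).prod (finite_univ (α := ℤˣ × ℤˣ))).image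
        (fun p : S × (ℤˣ × ℤˣ) => ((aff p.2.1 p.1 d'.1, p.2.2) : D))).subset ?_
      rintro ⟨x, ε⟩ ⟨s, a, ha, h⟩
      exact ⟨(a, (s, ε)), ⟨ha, mem_univ _⟩, Prod.ext h.symm rfl⟩
    have hmaps : MapsTo T0 B B := by
      rintro d ⟨s', a', ha', h⟩
      refine ⟨s d * s', ((s d : ℤˣ) : ℤ) • a' + a d, ?_, ?_⟩
      · rw [smul_add, ha, add_zero, smul_comm, ha', smul_zero]
      · rw [hT0']
        simp only [affD, aff, h, smul_add, smul_smul, Units.val_mul]
        abel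
    have : Finite B := hB
    have h1 : Function.Injective (hmaps.restrict T0 B B) := by
      rintro ⟨x, hx⟩ ⟨y, hy⟩ h
      exact Subtype.ext (hinj (congrArg Subtype.val h))
    obtain ⟨⟨d, _⟩, hd⟩ := (Finite.injective_iff_surjective.1 h1)
      ⟨d', 1, 0, by simp, by simp [aff]⟩
    exact ⟨d, congrArg Subtype.val hd⟩
  let T : Perm D := Equiv.ofBijective T0 ⟨hinj, hsurj⟩
  have hTd : ∀ d, T d = T0 d := fun d => rfl
  -- the value at a regular point
  have hreg : ∀ (d : D) (s0 : ℤˣ) (a0 : S), Gm f d.1 s0 a0 → T0 d = affD s0 a0 d := by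
    intro d s0 a0 h
    apply uniq
    filter_upwards [hg' d, (pt_tendsto d).eventually h] with t h1 h2
    rw [← h1, h2, aff_pt]
  have hmemk : ∀ {a : S}, m k • a = 0 → a ∈ Λ := fun {a} h => (c.mem a).2 ⟨k, h⟩
  have hnat : Nat1 Λ T := by
    refine ⟨fun d => ⟨s d, a d, hmemk (ha d), hT0' d⟩, fun x hx => ?_⟩
    have hxF : x ∉ F := fun h => hx (by
      have := hmemk (hFk x h)
      exact Λ.add_mem this this)
    obtain ⟨s0, a0, -, h⟩ := hloc x hxF
    rw [hTd, hTd, hreg (x, 1) s0 a0 h, hreg (x, -1) s0 a0 h]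
    rfl
  have hclaim : ∀ d : D, d.1 ∈ Λ → m k • d.1 ≠ 0 → Phi m (T0 d) = f (Phi m d) := by
    intro d hd hdk
    have hd0 : d.1 ≠ 0 := fun h => hdk (by rw [h, smul_zero])
    obtain ⟨i, hi⟩ : ∃ i, pr m d.1 = i := ⟨_, rfl⟩
    obtain ⟨h1, h2⟩ := c.pr_spec hd hd0
    rw [hi] at h1 h2
    have hki : k ≤ i := by
      by_contra h
      exact hdk (c.zero_mono (by omega) h1)
    have hdF : d.1 ∉ F := fun h => hdk (hFk _ h)
    obtain ⟨s0, a0, ha0, hG⟩ := hloc _ hdF
    have hT := hreg d s0 a0 hG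
    have hai : m i • a0 = 0 := c.zero_mono hki ha0
    have hai1 : m (i + 1) • a0 = 0 := c.zero_mono (by omega) ha0
    have hM : (0 : ℝ) < ((m (i + 1) : ℕ) : ℝ) := by exact_mod_cast c.pos (i + 1)
    obtain ⟨N, hN⟩ := c.dvd i
    have hNpos : 0 < N := by
      rcases Nat.eq_zero_or_pos N with h | h
      · have := c.pos (i + 1)
        rw [hN, h, mul_zero] at this
        exact absurd this (lt_irrefl 0)
      · exact h
    have hPhi := Phi_ne (m := m) d hd0 hi
    obtain ⟨q, hq⟩ : ∃ q, q = qp (m (i + 1)) d.1 d.2 := ⟨_, rfl⟩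
    have hqs : m i • q + m i • q ≠ 0 := by
      rw [hq, hN]
      exact qp_side_ne (c.pos i) hNpos (by rw [← hN]; exact h1) d.2
    rw [← hq] at hPhi
    obtain ⟨δ, hδ⟩ : ∃ δ, δ = side (m i • q) := ⟨_, rfl⟩
    rw [← hδ] at hPhi
    -- right-hand side
    have hR : f (Phi m d) = aff s0 a0 (Phi m d) := by
      rcases unit_eq_or δ d.2 with he | he
      · have : Phi m d = d.1 := by rw [hPhi, hq, he, qp]; simp
        rw [this]
        exact hG.self_of_nhds
      · have h3 : Phi m d = pt d (1 / (2 * ((m (i + 1) : ℕ) : ℝ))) := by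
          rw [hPhi, hq, he, qp, pt, sg_neg, add_sub_assoc, ← AddCircle.coe_sub]
          congr 2
          field_simp
          ring
        have hav : ∀ t ∈ Ioo (0 : ℝ) (1 / ((m (i + 1) : ℕ) : ℝ)), pt d t ∉ F := by
          intro t ht h
          have h4 : m (i + 1) • pt d t = 0 := c.zero_mono (by omega) (hFk _ h)
          rw [pt, smul_add, h1, zero_add, nsmul_coe] at h4
          have h5 : (((m (i + 1) : ℕ) : ℝ) * t) =
              sg d.2 * (((m (i + 1) : ℕ) : ℝ) * (sg d.2 * t)) := by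
            linear_combination (-(((m (i + 1) : ℕ) : ℝ) * t)) * sg_mul_self d.2
          have h6 : (((((m (i + 1) : ℕ) : ℝ) * t) : ℝ) : S) = 0 := by
            rw [h5, ← smul_coe, h4, smul_zero]
          refine coe_ne_zero (mul_pos hM ht.1) ?_ h6
          have := ht.2
          rw [lt_div_iff₀ hM] at this
          linarith
        have hpos : 0 < 1 / ((m (i + 1) : ℕ) : ℝ) := by positivity
        obtain ⟨s1, a1, -, h4⟩ := L1 hloc' d hpos hav
        have h5 : affD s1 a1 d = affD s0 a0 d := by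
          apply uniq
          filter_upwards [ev_lt hpos, (pt_tendsto d).eventually hG] with t h5 h6
          rw [← aff_pt, ← aff_pt, ← h6]
          exact (h4 t h5).self_of_nhds.symm
        have h6 : s1 = s0 := by
          have := congrArg Prod.snd h5
          simpa [affD] using this
        subst h6
        have h7 : a1 = a0 := by
          have := congrArg Prod.fst h5
          simpa [affD, aff] using this
        subst h7
        rw [h3]
        refine (h4 _ ⟨by positivity, ?_⟩).self_of_nhds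
        rw [one_div_lt_one_div (by positivity) hM]
        linarith
    -- left-hand side
    have h3 : m (i + 1) • aff s0 a0 d.1 = 0 := by rw [nsmul_aff _ _ _ _ hai1, h1, smul_zero]
    have h4 : m i • aff s0 a0 d.1 ≠ 0 := by
      rw [nsmul_aff _ _ _ _ hai]
      intro h
      apply h2
      rw [← smul_smul_self s0 (m i • d.1), h, smul_zero]
    have h5 : aff s0 a0 d.1 ≠ 0 := fun h => h4 (by rw [h, smul_zero])
    have h6 : qp (m (i + 1)) (aff s0 a0 d.1) (s0 * d.2) = aff s0 a0 q := by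
      rw [hq, qp, qp, aff_add, smul_coe, sg_mul, mul_assoc]
    rw [hR, hT, Phi_ne (m := m) (affD s0 a0 d) h5 (c.pr_eq h3 h4)]
    change qp (m (i + 1)) (aff s0 a0 d.1) (s0 * d.2) -
      ((sg (side (m i • qp (m (i + 1)) (aff s0 a0 d.1) (s0 * d.2))) *
        (1 / (4 * ((m (i + 1) : ℕ) : ℝ))) : ℝ) : S) = _
    rw [h6, nsmul_aff _ _ _ _ hai, side_smul hqs, ← hδ, hPhi, sg_mul, mul_assoc, ← smul_coe]
    simp only [aff, smul_sub]
    abel
  have hdiff : {x | act Λ m T x ≠ f x} ⊆ Phi m '' {d : D | m k • d.1 = 0} := by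
    intro x hx
    by_contra hB
    apply hx
    by_cases h : x + x ∈ Λ
    · rw [act_pos h]
      have h1 := c.Psi_mem h
      have h2 := c.Phi_Psi h
      have h3 : m k • (Psi Λ m x).1 ≠ 0 := fun h3 => hB ⟨_, h3, h2⟩
      have h4 := hclaim _ h1 h3
      rw [h2] at h4
      exact h4
    · rw [act_neg h, hTd]
      have hxF : x ∉ F := fun h' => h (by
        have := hmemk (hFk x h')
        exact Λ.add_mem this this)
      obtain ⟨s0, a0, -, h1⟩ := hloc x hxF
      rw [hreg (x, 1) s0 a0 h1]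
      exact h1.self_of_nhds.symm
  have hfin : {x | act Λ m T x ≠ f x}.Finite := by
    refine Set.Finite.subset (Set.Finite.image _ ?_) hdiff
    refine ((finite_tors (c.pos k)).prod (finite_univ (α := ℤˣ))).subset ?_
    intro d hd
    exact ⟨hd, mem_univ _⟩
  refine ⟨⟨T, hnat, fun d => ?_⟩, hfin⟩
  filter_upwards [hg' d, ev_avoid hfin d] with t h1 h2
  have h3 : act Λ m T (pt d t) = f (pt d t) := by
    by_contra h
    exact h2 h
  rw [h3, h1]
  rfl

end

end Pool.Agent.AD97
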